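import Pool.Agent.helper64.PB.SpecB

/-!
# pb:NLM: a non-affine function has a non-affine ternary minor

If all ternary minors of `f` are affine then `f(x or y) = f(x) + f(y) + f(0)` for disjoint `x`, `y` (the minor given by the
partition of the coordinates into `x`, `y` and the rest). Hence this holds for `x + y` in place of `x or y` and all `x`, `y`,
and so `f` is affine.
-/

set_option autoImplicit false

namespace Pool.Agent.PB

/-- If all ternary minors of `f` are affine then `f` is additive up to a constant on disjoint points. -/
theorem NLM_disj {n : ℕ} (f : BF n)
    (h : ∀ σ : Fin n → Fin 3, Affine fun y : Fin 3 → Bool => f fun i => y (σ i))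
    (x y : Fin n → Bool) (hxy : ∀ i, x i = true → y i = false) :
    f (fun i => xor (x i) (y i)) = xor (f x) (xor (f y) (f fun _ => false)) := by
  classical
  have h1 := h (fun i => if x i = true then 0 else if y i = true then 1 else 2)
    ![true, false, false] ![false, true, false] ![false, false, false]
  have e1 : (fun i : Fin n => (fun j : Fin 3 => xor ((![true, false, false] : Fin 3 → Bool) j)
      (xor ((![false, true, false] : Fin 3 → Bool) j) ((![false, false, false] : Fin 3 → Bool) j)))
      (if x i = true then 0 else if y i = true then 1 else 2)) = fun i => xor (x i) (y i) := by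
    funext i
    rcases hx : x i with _ | _
    · rcases hy : y i with _ | _ <;> simp
    · simp [hxy i hx]
  have e2 : (fun i : Fin n => (![true, false, false] : Fin 3 → Bool)
      (if x i = true then 0 else if y i = true then 1 else 2)) = x := by
    funext i
    rcases hx : x i with _ | _
    · rcases hy : y i with _ | _ <;> simp
    · simp
  have e3 : (fun i : Fin n => (![false, true, false] : Fin 3 → Bool)
      (if x i = true then 0 else if y i = true then 1 else 2)) = y := by
    funext i
    rcases hx : x i with _ | _
    · rcases hy : y i with _ | _ <;> simp
    · simp [hxy i hx]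
  have e4 : (fun i : Fin n => (![false, false, false] : Fin 3 → Bool)
      (if x i = true then 0 else if y i = true then 1 else 2)) = fun _ => false := by
    funext i
    rcases hx : x i with _ | _
    · rcases hy : y i with _ | _ <;> simp
    · simp
  have h2 : f (fun i : Fin n => (fun j : Fin 3 => xor ((![true, false, false] : Fin 3 → Bool) j)
      (xor ((![false, true, false] : Fin 3 → Bool) j) ((![false, false, false] : Fin 3 → Bool) j)))
      (if x i = true then 0 else if y i = true then 1 else 2)) =
      xor (f (fun i : Fin n => (![true, false, false] : Fin 3 → Bool)
      (if x i = true then 0 else if y i = true then 1 else 2)))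
      (xor (f (fun i : Fin n => (![false, true, false] : Fin 3 → Bool)
      (if x i = true then 0 else if y i = true then 1 else 2)))
      (f (fun i : Fin n => (![false, false, false] : Fin 3 → Bool)
      (if x i = true then 0 else if y i = true then 1 else 2)))) := h1
  rw [e1, e2, e3, e4] at h2
  exact h2

/-- If all ternary minors of `f` are affine then `f` is additive up to a constant. -/
theorem NLM_add {n : ℕ} (f : BF n)
    (h : ∀ σ : Fin n → Fin 3, Affine fun y : Fin 3 → Bool => f fun i => y (σ i))
    (x y : Fin n → Bool) :
    f (fun i => xor (x i) (y i)) = xor (f x) (xor (f y) (f fun _ => false)) := by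
  have h1 := NLM_disj f h (fun i => x i && !(y i)) (fun i => x i && y i) (by
    intro i; cases x i <;> cases y i <;> simp)
  have h2 := NLM_disj f h (fun i => y i && !(x i)) (fun i => x i && y i) (by
    intro i; cases x i <;> cases y i <;> simp)
  have h3 := NLM_disj f h (fun i => x i && !(y i)) (fun i => y i && !(x i)) (by
    intro i; cases x i <;> cases y i <;> simp)
  have e1 : (fun i => xor (x i && !(y i)) (x i && y i)) = x := by
    funext i; cases x i <;> cases y i <;> rfl
  have e2 : (fun i => xor (y i && !(x i)) (x i && y i)) = y := by
    funext i; cases x i <;> cases y i <;> rfl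
  have e3 : (fun i => xor (x i && !(y i)) (y i && !(x i))) = fun i => xor (x i) (y i) := by
    funext i; cases x i <;> cases y i <;> rfl
  rw [e1] at h1
  rw [e2] at h2
  rw [e3] at h3
  rw [h3, h1, h2]
  generalize (f fun i => x i && !(y i)) = a
  generalize (f fun i => y i && !(x i)) = b
  generalize (f fun i => x i && y i) = c
  generalize (f fun _ => false) = d
  revert a b c d
  decide

theorem NLM : NLM_stmt := by
  intro n f hf
  by_contra hc
  have h : ∀ σ : Fin n → Fin 3, Affine fun y : Fin 3 → Bool => f fun i => y (σ i) := by
    intro σ
    by_contra h'
    exact hc ⟨σ, h'⟩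
  apply hf
  intro x y z
  rw [NLM_add f h x (fun i => xor (y i) (z i)), NLM_add f h y z]
  generalize f x = a
  generalize f y = b
  generalize f z = c
  generalize (f fun _ => false) = d
  revert a b c d
  decide

end Pool.Agent.PB
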