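import Pool.Agent.helper64.PB.SpecF

/-!
# pb:SM2: the second moment estimate
-/

set_option autoImplicit false

namespace Pool.Agent.PB

open Finset Polynomial

section
set_option linter.unusedSectionVars false
variable {K : Type} [Field K] [Fintype K] [DecidableEq K]

/-- the cell of a point -/
def SM2_cell {p L : ℕ} (ε : K ≃ Fin p × Fin L) (z : K × K) : K × Fin p := (z.1, (ε z.2).1)

/-- The number of rounds which hit a set with different cells. -/
theorem SM2_eq {p L : ℕ} (ε : K ≃ Fin p × Fin L) (S : Finset (K × K))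
    (hinj : Set.InjOn (SM2_cell ε) (S : Set (K × K))) :
    (univ.filter fun ψ : K × Fin p → Fin L => ∀ z ∈ S, hit ε ψ z).card * L ^ S.card =
      Fintype.card (K × Fin p → Fin L) := by
  classical
  have h1 : (univ.filter fun ψ : K × Fin p → Fin L => ∀ z ∈ S, hit ε ψ z) =
      Fintype.piFinset fun c => univ.filter fun y : Fin L => ∀ z ∈ S, SM2_cell ε z = c → y = (ε z.2).2 := by
    ext ψ
    simp only [mem_filter, mem_univ, true_and, Fintype.mem_piFinset]
    constructor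
    · rintro h c z hz rfl
      exact h z hz
    · intro h z hz
      exact h _ z hz rfl
  have h2 : L ^ S.card = ∏ c : K × Fin p, if c ∈ S.image (SM2_cell ε) then L else 1 := by
    rw [Finset.prod_ite_mem, Finset.univ_inter, Finset.prod_const, Finset.card_image_of_injOn hinj]
  rw [h1, Fintype.card_piFinset, h2, ← Finset.prod_mul_distrib, Fintype.card_fun, Fintype.card_fin]
  rw [Finset.prod_congr rfl (g := fun _ => L), Finset.prod_const, Finset.card_univ]
  intro c _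
  by_cases hc : c ∈ S.image (SM2_cell ε)
  · rw [if_pos hc]
    obtain ⟨z, hz, rfl⟩ := Finset.mem_image.1 hc
    have h3 : (univ.filter fun y : Fin L => ∀ z' ∈ S, SM2_cell ε z' = SM2_cell ε z → y = (ε z'.2).2) =
        {(ε z.2).2} := by
      ext y
      simp only [mem_filter, mem_univ, true_and, mem_singleton]
      constructor
      · intro h
        exact h z hz rfl
      · rintro rfl z' hz' he
        rw [hinj hz' hz he]
    rw [h3, Finset.card_singleton, one_mul]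
  · rw [if_neg hc, mul_one]
    have h3 : (univ.filter fun y : Fin L => ∀ z' ∈ S, SM2_cell ε z' = c → y = (ε z'.2).2) = univ := by
      ext y
      simp only [mem_filter, mem_univ, true_and, iff_true]
      intro z' hz' he
      exact absurd (Finset.mem_image.2 ⟨z', hz', he⟩) hc
    rw [h3, Finset.card_univ, Fintype.card_fin]

/-- The number of rounds which hit a set. -/
theorem SM2_le {p L : ℕ} (ε : K ≃ Fin p × Fin L) (S : Finset (K × K)) :
    (univ.filter fun ψ : K × Fin p → Fin L => ∀ z ∈ S, hit ε ψ z).card * L ^ S.card ≤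
      Fintype.card (K × Fin p → Fin L) := by
  classical
  by_cases hinj : Set.InjOn (SM2_cell ε) (S : Set (K × K))
  · exact (SM2_eq ε S hinj).le
  · rw [Set.InjOn] at hinj
    push Not at hinj
    obtain ⟨z, hz, z', hz', he, hne⟩ := hinj
    have h1 : (univ.filter fun ψ : K × Fin p → Fin L => ∀ z ∈ S, hit ε ψ z) = ∅ := by
      rw [Finset.filter_eq_empty_iff]
      intro ψ _ h
      apply hne
      have h2 : ψ (z.1, (ε z.2).1) = (ε z.2).2 := h z hz
      have h3 : ψ (z'.1, (ε z'.2).1) = (ε z'.2).2 := h z' hz'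
      have h4 : z.1 = z'.1 := (Prod.ext_iff.1 he).1
      have h5 : (ε z.2).1 = (ε z'.2).1 := (Prod.ext_iff.1 he).2
      rw [h4, h5, h3] at h2
      have h6 : ε z.2 = ε z'.2 := Prod.ext h5 h2.symm
      exact Prod.ext h4 (ε.injective h6)
    rw [h1, Finset.card_empty, zero_mul]
    exact Nat.zero_le _

theorem SM2_pf {p L : ℕ} (ε : K ≃ Fin p × Fin L) (S : Finset (K × K)) (hS : PF S) :
    Set.InjOn (SM2_cell ε) (S : Set (K × K)) := by
  intro z hz z' hz' he
  exact hS z hz z' hz' (Prod.ext_iff.1 he).1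

end

theorem SM2_num (t i : ℕ) (ht : 1 ≤ t) (hi : i ≤ 2 * t) : (1 / (4 * (t : ℝ)) + 1) ^ i ≤ 2 := by
  have h0 : (0 : ℝ) < t := by exact_mod_cast ht
  have h1 : (1 : ℝ) ≤ 1 / (4 * (t : ℝ)) + 1 := by
    have : (0 : ℝ) < 1 / (4 * (t : ℝ)) := by positivity
    linarith
  have h2 : (1 / (4 * (t : ℝ)) + 1) ^ i ≤ (1 / (4 * (t : ℝ)) + 1) ^ (2 * t) := pow_le_pow_right₀ h1 hi
  have h3 : (1 / (4 * (t : ℝ)) + 1) ^ (2 * t) ≤ (Real.exp (1 / (4 * (t : ℝ)))) ^ (2 * t) :=
    pow_le_pow_left₀ (by positivity) (Real.add_one_le_exp _) _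
  have h4 : (Real.exp (1 / (4 * (t : ℝ)))) ^ (2 * t) = Real.exp (1 / 2) := by
    rw [← Real.exp_nat_mul]
    congr 1
    push_cast
    field_simp
    norm_num
  have h5 : Real.exp (1 / 2) ≤ 2 := by
    have h6 : Real.exp (1 / 2) ^ 2 = Real.exp 1 := by
      rw [← Real.exp_nat_mul]
      norm_num
    have h7 := Real.exp_one_lt_d9
    have h8 := Real.exp_pos (1 / 2)
    nlinarith
  linarith [h4 ▸ h3]

theorem SM2 : SM2_stmt := by
  classical
  intro K _ _ _ p L t i ε 𝓖 hL ht hi hne hB hZ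
  have hLr : (1 : ℝ) ≤ (L : ℝ) := by exact_mod_cast hL
  have hL0 : (0 : ℝ) < (L : ℝ) := by linarith
  have ht0 : (0 : ℝ) < (t : ℝ) := by exact_mod_cast ht
  have hg0 : (0 : ℝ) < (𝓖.card : ℝ) := by exact_mod_cast hne.card_pos
  have : Nonempty (Fin L) := ⟨⟨0, hL⟩⟩
  have hN0 : (0 : ℝ) < (Fintype.card (K × Fin p → Fin L) : ℝ) := by exact_mod_cast Fintype.card_pos
  set N : ℝ := (Fintype.card (K × Fin p → Fin L) : ℝ) with hN
  set g : ℝ := (𝓖.card : ℝ) with hg
  -- the numbers of rounds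
  set h : Finset (K × K) → ℝ := fun S =>
    ((univ.filter fun ψ : K × Fin p → Fin L => ∀ z ∈ S, hit ε ψ z).card : ℝ) with hh
  have h1 : ∀ B ∈ 𝓖, h B * (L : ℝ) ^ i = N := by
    intro B hb
    have := SM2_eq ε B (SM2_pf ε B (hB B hb).1)
    rw [(hB B hb).2] at this
    rw [hN, ← this]
    push_cast
    rfl
  have h2 : ∀ B ∈ 𝓖, ∀ B' ∈ 𝓖, h (B ∪ B') * ((L : ℝ) ^ i) ^ 2 ≤ N * (L : ℝ) ^ (B ∩ B').card := by
    intro B hb B' hb'
    have h3 : h (B ∪ B') * (L : ℝ) ^ (B ∪ B').card ≤ N := by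
      have h0 := SM2_le ε (B ∪ B')
      have h0' : (((univ.filter fun ψ : K × Fin p → Fin L => ∀ z ∈ B ∪ B', hit ε ψ z).card *
          L ^ (B ∪ B').card : ℕ) : ℝ) ≤ N := by
        rw [hN]
        exact_mod_cast h0
      push_cast at h0'
      exact h0'
    have h4 : ((L : ℝ) ^ i) ^ 2 = (L : ℝ) ^ (B ∪ B').card * (L : ℝ) ^ (B ∩ B').card := by
      rw [← pow_add, Finset.card_union_add_card_inter, (hB B hb).2, (hB B' hb').2, ← pow_mul]
      congr 1
      ring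
    rw [h4, ← mul_assoc]
    exact mul_le_mul_of_nonneg_right h3 (by positivity)
  have h3 : ∀ B ∈ 𝓖, ∑ B' ∈ 𝓖, (L : ℝ) ^ (B ∩ B').card ≤ 2 * g := by
    intro B hb
    have h4 : ∀ B' ∈ 𝓖, (L : ℝ) ^ (B ∩ B').card ≤ ∑ Z ∈ B.powerset, if Z ⊆ B' then (L : ℝ) ^ Z.card else 0 := by
      intro B' _
      have h5 : (L : ℝ) ^ (B ∩ B').card = if B ∩ B' ⊆ B' then (L : ℝ) ^ (B ∩ B').card else 0 := by
        rw [if_pos Finset.inter_subset_right]
      rw [h5]
      refine Finset.single_le_sum (f := fun Z => if Z ⊆ B' then (L : ℝ) ^ Z.card else 0) ?_ ?_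
      · intro Z _
        show 0 ≤ if Z ⊆ B' then (L : ℝ) ^ Z.card else 0
        split_ifs
        · positivity
        · exact le_refl _
      · exact Finset.mem_powerset.2 Finset.inter_subset_left
    have h5 : ∑ B' ∈ 𝓖, (L : ℝ) ^ (B ∩ B').card ≤
        ∑ Z ∈ B.powerset, (L : ℝ) ^ Z.card * ((𝓖.filter fun B => Z ⊆ B).card : ℝ) := by
      refine (Finset.sum_le_sum h4).trans ?_
      rw [Finset.sum_comm]
      refine Finset.sum_le_sum fun Z _ => ?_
      rw [← Finset.sum_filter, Finset.sum_const, nsmul_eq_mul, mul_comm]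
    have h6 : ∀ Z ∈ B.powerset, (L : ℝ) ^ Z.card * ((𝓖.filter fun B => Z ⊆ B).card : ℝ) ≤
        g * ((1 / (4 * (t : ℝ))) ^ Z.card * 1 ^ (B.card - Z.card)) := by
      intro Z _
      have h7 : ((𝓖.filter fun B => Z ⊆ B).card : ℝ) * (4 * t * L) ^ Z.card ≤ g := by
        rw [hg]
        exact_mod_cast hZ Z
      rw [one_pow, mul_one, one_div, inv_pow, ← div_eq_mul_inv, le_div_iff₀ (by positivity)]
      calc (L : ℝ) ^ Z.card * ((𝓖.filter fun B => Z ⊆ B).card : ℝ) * (4 * (t : ℝ)) ^ Z.card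
          = ((𝓖.filter fun B => Z ⊆ B).card : ℝ) * (4 * t * L) ^ Z.card := by
            rw [mul_pow (4 * (t : ℝ)) (L : ℝ)]
            ring
        _ ≤ g := h7
    refine h5.trans ((Finset.sum_le_sum h6).trans ?_)
    rw [← Finset.mul_sum, Finset.sum_pow_mul_eq_add_pow, (hB B hb).2, mul_comm]
    exact mul_le_mul_of_nonneg_right (SM2_num t i ht hi) hg0.le
  -- the moments
  set X : (K × Fin p → Fin L) → ℝ := fun ψ =>
    ∑ B ∈ 𝓖, if (∀ z ∈ B, hit ε ψ z) then (1 : ℝ) else 0 with hX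
  have hcount : ∀ S : Finset (K × K), ∑ ψ : K × Fin p → Fin L, (if (∀ z ∈ S, hit ε ψ z) then (1 : ℝ) else 0) =
      h S := by
    intro S
    rw [hh, Finset.sum_boole]
  have m1 : (∑ ψ, X ψ) * (L : ℝ) ^ i = g * N := by
    rw [hX, Finset.sum_comm, Finset.sum_mul, Finset.sum_congr rfl (g := fun _ => N), Finset.sum_const,
      nsmul_eq_mul]
    intro B hb
    rw [hcount, h1 B hb]
  have m2 : (∑ ψ, X ψ ^ 2) * ((L : ℝ) ^ i) ^ 2 ≤ N * g * (2 * g) := by
    have e1 : ∀ ψ, X ψ ^ 2 = ∑ B ∈ 𝓖, ∑ B' ∈ 𝓖, if (∀ z ∈ B ∪ B', hit ε ψ z) then (1 : ℝ) else 0 := by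
      intro ψ
      rw [hX, sq, Finset.sum_mul_sum]
      refine Finset.sum_congr rfl fun B _ => Finset.sum_congr rfl fun B' _ => ?_
      by_cases c1 : ∀ z ∈ B, hit ε ψ z
      · by_cases c2 : ∀ z ∈ B', hit ε ψ z
        · rw [if_pos c1, if_pos c2, if_pos, one_mul]
          intro z hz
          rcases Finset.mem_union.1 hz with h | h
          · exact c1 z h
          · exact c2 z h
        · rw [if_neg c2, mul_zero, if_neg]
          intro hc
          exact c2 fun z hz => hc z (Finset.mem_union_right _ hz)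
      · rw [if_neg c1, zero_mul, if_neg]
        intro hc
        exact c1 fun z hz => hc z (Finset.mem_union_left _ hz)
    have e2 : ∑ ψ, X ψ ^ 2 = ∑ B ∈ 𝓖, ∑ B' ∈ 𝓖, h (B ∪ B') := by
      rw [Finset.sum_congr rfl fun ψ _ => e1 ψ, Finset.sum_comm]
      refine Finset.sum_congr rfl fun B _ => ?_
      rw [Finset.sum_comm]
      exact Finset.sum_congr rfl fun B' _ => hcount _
    rw [e2, Finset.sum_mul]
    have e3 : ∀ B ∈ 𝓖, (∑ B' ∈ 𝓖, h (B ∪ B')) * ((L : ℝ) ^ i) ^ 2 ≤ N * (2 * g) := by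
      intro B hb
      rw [Finset.sum_mul]
      calc ∑ B' ∈ 𝓖, h (B ∪ B') * ((L : ℝ) ^ i) ^ 2 ≤ ∑ B' ∈ 𝓖, N * (L : ℝ) ^ (B ∩ B').card :=
            Finset.sum_le_sum fun B' hb' => h2 B hb B' hb'
        _ = N * ∑ B' ∈ 𝓖, (L : ℝ) ^ (B ∩ B').card := by rw [Finset.mul_sum]
        _ ≤ N * (2 * g) := mul_le_mul_of_nonneg_left (h3 B hb) hN0.le
    refine (Finset.sum_le_sum e3).trans ?_
    rw [Finset.sum_const, nsmul_eq_mul]
    exact le_of_eq (by ring)
  -- Cauchy-Schwarz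
  set H : Finset (K × Fin p → Fin L) := univ.filter fun ψ => ∃ B ∈ 𝓖, ∀ z ∈ B, hit ε ψ z with hH
  have c1 : ∑ ψ, X ψ = ∑ ψ ∈ H, X ψ := by
    symm
    refine Finset.sum_subset (Finset.subset_univ _) ?_
    intro ψ _ hψ
    rw [hX]
    refine Finset.sum_eq_zero fun B hb => ?_
    rw [if_neg]
    intro hc
    exact hψ (Finset.mem_filter.2 ⟨Finset.mem_univ _, B, hb, hc⟩)
  have c2 : (∑ ψ ∈ H, X ψ) ^ 2 ≤ (H.card : ℝ) * ∑ ψ ∈ H, X ψ ^ 2 := sq_sum_le_card_mul_sum_sq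
  have c3 : ∑ ψ ∈ H, X ψ ^ 2 ≤ ∑ ψ, X ψ ^ 2 :=
    Finset.sum_le_sum_of_subset_of_nonneg (Finset.subset_univ _) fun ψ _ _ => sq_nonneg _
  have c4 : (g * N) ^ 2 ≤ (H.card : ℝ) * (N * g * (2 * g)) := by
    calc (g * N) ^ 2 = (∑ ψ ∈ H, X ψ) ^ 2 * ((L : ℝ) ^ i) ^ 2 := by rw [← m1, c1, mul_pow]
      _ ≤ ((H.card : ℝ) * ∑ ψ ∈ H, X ψ ^ 2) * ((L : ℝ) ^ i) ^ 2 :=
          mul_le_mul_of_nonneg_right c2 (by positivity)
      _ ≤ ((H.card : ℝ) * ∑ ψ, X ψ ^ 2) * ((L : ℝ) ^ i) ^ 2 :=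
          mul_le_mul_of_nonneg_right (mul_le_mul_of_nonneg_left c3 (by positivity)) (by positivity)
      _ = (H.card : ℝ) * ((∑ ψ, X ψ ^ 2) * ((L : ℝ) ^ i) ^ 2) := by ring
      _ ≤ (H.card : ℝ) * (N * g * (2 * g)) := mul_le_mul_of_nonneg_left m2 (by positivity)
  have c5 : N ≤ (H.card : ℝ) * 2 := by
    have h8 : (0 : ℝ) < N * g ^ 2 := by positivity
    have h9 : N * (N * g ^ 2) ≤ (H.card : ℝ) * 2 * (N * g ^ 2) := by nlinarith [c4]
    exact le_of_mul_le_mul_right h9 h8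
  rw [hN] at c5
  exact_mod_cast c5

end Pool.Agent.PB
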